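import Pool.Agent.Q86.EM.Stm2

/-! # Project FS (helper86), JOB IND: induction on the codimension -/

set_option autoImplicit false

namespace Pool.Agent.Q275.EM

open MeasureTheory Set Filter Topology
open scoped ENNReal InnerProductSpace ContDiff
open Pool.Agent.W695.KH (EV VV)
open Pool.Agent.Q86.FIB (Sp EK spl oo lp)
open Pool.Agent.Q86.EM

section transport

variable {κ κ' : Type} [Fintype κ] [Fintype κ'] (E : Eu κ ≃ₗᵢ[ℝ] Eu κ')

theorem EV_pre (D : Set (Eu κ')) (v : Eu κ' → ℝ) : EV (E ⁻¹' D) (fun x => v (E x)) = EV D v := by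
  have hp : MeasurePreserving E (volume : Measure (Eu κ)) (volume : Measure (Eu κ')) := E.measurePreserving
  have he : MeasurableEmbedding E := E.toHomeomorph.measurableEmbedding
  unfold EV
  rw [hp.setIntegral_preimage_emb he v D, hp.measure_preimage_emb he D]

theorem VV_pre (D : Set (Eu κ')) (v : Eu κ' → ℝ) : VV (E ⁻¹' D) (fun x => v (E x)) = VV D v := by
  unfold VV
  rw [EV_pre E D v, EV_pre E D (fun x => v x ^ 2)]

theorem CV_pre {D : Set (Eu κ')} {s : ℝ} (h : CV D s) : CV (E ⁻¹' D) s := by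
  intro θ
  have h1 := h (E θ)
  have h2 := VV_pre E D (fun x => ⟪E θ, x⟫_ℝ)
  have h3 : (fun x => ⟪E θ, E x⟫_ℝ) = fun x => ⟪θ, x⟫_ℝ := by
    funext x
    exact E.inner_map_map θ x
  rw [h3] at h2
  rw [h2]
  rw [E.norm_map] at h1
  exact h1

theorem PI_post {D : Set (Eu κ')} {c : ℝ} (h : PI (E ⁻¹' D) c) : PI D c := by
  intro f hf
  have h1 := h (fun x => f (E x)) (hf.comp E.contDiff)
  rw [VV_pre E D f] at h1
  have h2 : (fun x => ‖fderiv ℝ (fun x => f (E x)) x‖ ^ 2) = fun x => ‖fderiv ℝ f (E x)‖ ^ 2 := by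
    funext x
    have h3 : fderiv ℝ (fun x => f (E x)) x = (fderiv ℝ f (E x)).comp (E : Eu κ →L[ℝ] Eu κ') := by
      have h4 := ((hf.differentiable one_ne_zero (E x)).hasFDerivAt).comp x
        ((E : Eu κ →L[ℝ] Eu κ').hasFDerivAt (x := x))
      exact h4.fderiv
    rw [h3]
    congr 1
    exact ContinuousLinearMap.opNorm_comp_linearIsometryEquiv _ _
  rw [h2, EV_pre E D (fun y => ‖fderiv ℝ f y‖ ^ 2)] at h1
  exact h1

theorem KLS_post {D : Set (Eu κ')} {k : ℝ} (h : KLSc (E ⁻¹' D) k) : KLSc D k := by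
  intro s hs
  exact PI_post E (h s (CV_pre E hs))

theorem CB_pre {D : Set (Eu κ')} (h : CB D) : CB (E ⁻¹' D) := by
  refine ⟨?_, ?_, ?_⟩
  · exact E.toHomeomorph.isCompact_preimage.2 h.cpt
  · exact h.cvx.linear_preimage E.toLinearEquiv.toLinearMap
  · have h1 : E ⁻¹' (interior D) = interior (E ⁻¹' D) := E.toHomeomorph.preimage_interior D
    rw [← h1]
    obtain ⟨y, hy⟩ := h.int
    exact ⟨E.symm y, by
      show E (E.symm y) ∈ interior D
      rw [E.apply_symm_apply]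
      exact hy⟩

end transport

/-! ### the coordinates -/

theorem pt_inl (n : ℕ) (t : ℝ) (z : Eu (Fin n)) (i : Fin 1) : pt n t z (Sum.inl i) = t := rfl

theorem pt_inr (n : ℕ) (t : ℝ) (z : Eu (Fin n)) (i : Fin n) : pt n t z (Sum.inr i) = z i := rfl

theorem pm_inl (m n : ℕ) (t : Eu (Fin m)) (z : Eu (Fin n)) (i : Fin m) : pm m n t z (Sum.inl i) = t i := rfl

theorem pm_inr (m n : ℕ) (t : Eu (Fin m)) (z : Eu (Fin n)) (i : Fin n) : pm m n t z (Sum.inr i) = z i := rfl

theorem pt_isometry (n : ℕ) (t : ℝ) : Isometry (pt n t) := by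
  refine Isometry.of_dist_eq fun x y => ?_
  rw [EuclideanSpace.dist_eq, EuclideanSpace.dist_eq, Fintype.sum_sum_type]
  simp only [pt_inl, pt_inr, dist_self]
  simp

theorem pt_comb (n : ℕ) (t a b : ℝ) (hab : a + b = 1) (x y : Eu (Fin n)) :
    pt n t (a • x + b • y) = a • pt n t x + b • pt n t y := by
  ext i
  rcases i with i | i
  · show t = a * t + b * t
    rw [← add_mul, hab, one_mul]
  · rfl

theorem sl_CB {n : ℕ} {D : Set (EK 1 n)} (h : CB D) (t : ℝ) (ht : (interior (sl D t)).Nonempty) :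
    CB (sl D t) := by
  refine ⟨?_, ?_, ht⟩
  · exact (pt_isometry n t).isClosedEmbedding.isCompact_preimage h.cpt
  · intro x hx y hy a b ha hb hab
    show pt n t (a • x + b • y) ∈ D
    rw [pt_comb n t a b hab]
    exact h.cvx hx hy ha hb hab

/-- the reindexing -/
def ix (m n : ℕ) : Fin 1 ⊕ Fin (m + n) ≃ Fin (m + 1) ⊕ Fin n where
  toFun := Sum.elim (fun _ => Sum.inl 0)
    (fun l => Sum.elim (fun i => Sum.inl i.succ) (fun j => Sum.inr j) (finSumFinEquiv.symm l))
  invFun := Sum.elim (Fin.cases (Sum.inl 0) (fun i => Sum.inr (finSumFinEquiv (Sum.inl i))))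
    (fun j => Sum.inr (finSumFinEquiv (Sum.inr j)))
  left_inv := by
    intro x
    rcases x with i | l
    · have : i = 0 := Subsingleton.elim _ _
      subst this
      rfl
    · obtain ⟨w, rfl⟩ := finSumFinEquiv.surjective l
      rcases w with i | j
      · simp only [Sum.elim_inr, Equiv.symm_apply_apply, Sum.elim_inl]
        rfl
      · simp only [Sum.elim_inr, Equiv.symm_apply_apply]
  right_inv := by
    intro x
    rcases x with i | j
    · refine Fin.cases ?_ (fun i => ?_) i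
      · rfl
      · show Sum.elim (fun _ => Sum.inl 0)
          (fun l => Sum.elim (fun i => Sum.inl i.succ) (fun j => Sum.inr j) (finSumFinEquiv.symm l))
          (Sum.inr (finSumFinEquiv (Sum.inl i))) = _
        simp only [Sum.elim_inr, Equiv.symm_apply_apply, Sum.elim_inl]
    · simp only [Sum.elim_inr, Equiv.symm_apply_apply]

theorem ix_symm_inr (m n : ℕ) (j : Fin n) : (ix m n).symm (Sum.inr j) = Sum.inr (finSumFinEquiv (Sum.inr j)) := rfl

theorem ix_symm_zero (m n : ℕ) : (ix m n).symm (Sum.inl 0) = Sum.inl 0 := rfl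

theorem ix_symm_succ (m n : ℕ) (i : Fin m) :
    (ix m n).symm (Sum.inl i.succ) = Sum.inr (finSumFinEquiv (Sum.inl i)) := rfl

/-- reindexing of Euclidean space -/
noncomputable def rx {ι ι' : Type} [Fintype ι] [Fintype ι'] (e : ι ≃ ι') : Eu ι ≃ₗᵢ[ℝ] Eu ι' :=
  LinearIsometryEquiv.piLpCongrLeft 2 ℝ ℝ e

theorem rx_apply {ι ι' : Type} [Fintype ι] [Fintype ι'] (e : ι ≃ ι') (x : Eu ι) (j : ι') :
    rx e x j = x (e.symm j) := rfl

theorem ind (h : S_ONE) : S_IND := by
  obtain ⟨C, hC1, hC⟩ := h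
  refine ⟨C, hC1, fun m => ?_⟩
  induction m with
  | zero =>
    intro n D hD k hk hs
    rw [pow_zero, one_mul]
    obtain ⟨E, hE⟩ : ∃ E : Eu (Fin n) ≃ₗᵢ[ℝ] Eu (Fin 0 ⊕ Fin n), E = rx (Equiv.emptySum (Fin 0) (Fin n)).symm :=
      ⟨_, rfl⟩
    have h1 : sm D 0 = E ⁻¹' D := by
      ext z
      show pm 0 n 0 z ∈ D ↔ E z ∈ D
      have h2 : pm 0 n 0 z = E z := by
        ext i
        rcases i with i | i
        · exact i.elim0
        · rw [hE]
          rfl
      rw [h2]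
    have h2 := hs 0
    rw [h1] at h2
    exact KLS_post E (h2 (CB_pre E hD).int)
  | succ m ih =>
    intro n D hD k hk hs
    obtain ⟨E, hE⟩ : ∃ E : EK 1 (m + n) ≃ₗᵢ[ℝ] Eu (Fin (m + 1) ⊕ Fin n), E = rx (ix m n) := ⟨_, rfl⟩
    obtain ⟨E2, hE2⟩ : ∃ E2 : Eu (Fin m ⊕ Fin n) ≃ₗᵢ[ℝ] Eu (Fin (m + n)), E2 = rx finSumFinEquiv := ⟨_, rfl⟩
    have hCm : 1 ≤ C ^ m * k := by
      have := one_le_pow₀ (n := m) hC1
      nlinarith
    have key : ∀ (u : ℝ) (t : Eu (Fin m)) (z : Eu (Fin n)),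
        E (pt (m + n) u (E2 (pm m n t z))) = pm (m + 1) n (WithLp.toLp 2 (Fin.cons u t)) z := by
      intro u t z
      ext i
      rcases i with i | i
      · refine Fin.cases ?_ (fun i => ?_) i
        · rw [hE, rx_apply, ix_symm_zero, pt_inl, pm_inl]
          rfl
        · rw [hE, rx_apply, ix_symm_succ, pt_inr, hE2, rx_apply, Equiv.symm_apply_apply, pm_inl, pm_inl]
          rfl
      · rw [hE, rx_apply, ix_symm_inr, pt_inr, hE2, rx_apply, Equiv.symm_apply_apply, pm_inr, pm_inr]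
    have h1 : ∀ u : ℝ, (interior (sl (E ⁻¹' D) u)).Nonempty → KLSc (sl (E ⁻¹' D) u) (C ^ m * k) := by
      intro u hu
      have h2 : CB (sl (E ⁻¹' D) u) := sl_CB (CB_pre E hD) u hu
      refine KLS_post E2 (ih n (E2 ⁻¹' (sl (E ⁻¹' D) u)) (CB_pre E2 h2) k hk ?_)
      intro t ht
      have h3 : sm (E2 ⁻¹' (sl (E ⁻¹' D) u)) t = sm D (WithLp.toLp 2 (Fin.cons u t)) := by
        ext z
        show E (pt (m + n) u (E2 (pm m n t z))) ∈ D ↔ pm (m + 1) n (WithLp.toLp 2 (Fin.cons u t)) z ∈ D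
        rw [key]
      rw [h3] at ht ⊢
      exact hs _ ht
    have h4 := hC (m + n) (E ⁻¹' D) (CB_pre E hD) (C ^ m * k) hCm h1
    have h5 := KLS_post E h4
    rw [pow_succ, mul_comm (C ^ m) C, mul_assoc]
    exact h5

end Pool.Agent.Q275.EM
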