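import Pool.Agent.Q86.EM.Stm

/-! # Project EM (helper86), JOB INT -/

set_option autoImplicit false

namespace Pool.Agent.Q275.EM

open MeasureTheory Set Filter Topology
open Pool.Agent.H888R2.KT (LC pst gs zz gc)
open Pool.Agent.H212R2.KLS (mu Bdd)
open Pool.Agent.Q86.EM

theorem integrable_bdd {κ : Type} [Fintype κ] (ν : Measure (Eu κ)) [IsProbabilityMeasure ν] (f : Eu κ → ℝ)
    (hf : Continuous f) (B : ℝ) (hB : ∀ x, |f x| ≤ B) : Integrable f ν :=
  Integrable.of_bound hf.aestronglyMeasurable B (Eventually.of_forall fun x => by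
    rw [Real.norm_eq_abs]
    exact hB x)

theorem int (h1 : S_FUB) (h2 : S_GSF) : S_INT := by
  intro κ _ ρ hρ hμ h hh H v hv hm
  obtain ⟨hν, _⟩ := h1 κ ρ hρ hμ h hh
  obtain ⟨hG, hGc, _⟩ := h2 κ h hh
  have hP : IsProbabilityMeasure (mu ρ) := ⟨hμ⟩
  have hvb : ∀ y, |v y| ≤ 1 := fun y => abs_le.2 ⟨by linarith [hv.nn y], hv.le y⟩
  have hvi : Integrable v (ny h ρ) := integrable_bdd _ v hv.cont 1 hvb
  obtain ⟨m, hmd⟩ : ∃ m : ℝ, m = ∫ y, v y ∂(ny h ρ) := ⟨_, rfl⟩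
  rw [← hmd] at hm ⊢
  have h1m : 1 / 2 ≤ 1 - m := by linarith
  obtain ⟨t, ht⟩ : ∃ t : ℝ, t = (1 / 2 - m) / (1 - m) := ⟨_, rfl⟩
  have htm : t * (1 - m) = 1 / 2 - m := by
    rw [ht]
    exact div_mul_cancel₀ _ (by linarith)
  have ht0 : 0 ≤ t := by
    rw [ht]
    exact div_nonneg (by linarith) (by linarith)
  have hm0 : 0 ≤ m := by
    rw [hmd]
    exact integral_nonneg hv.nn
  have ht1 : t ≤ 1 := by
    rw [ht, div_le_one (by linarith)]
    linarith
  have ht2 : t ≤ 2 * (1 / 2 - m) := by nlinarith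
  -- the new function
  obtain ⟨w, hw⟩ : ∃ w : Eu κ → ℝ, w = fun y => (1 - t) * v y + t := ⟨_, rfl⟩
  have hwv : ∀ y, w y = (1 - t) * v y + t := fun y => by rw [hw]
  have hwc : Continuous w := by
    rw [hw]
    exact (continuous_const.mul hv.cont).add continuous_const
  have hW : Vc w := by
    refine ⟨hwc, fun y => ?_, fun y => ?_⟩
    · rw [hwv]
      have := mul_nonneg (sub_nonneg.2 ht1) (hv.nn y)
      linarith
    · rw [hwv]
      have := mul_le_mul_of_nonneg_left (hv.le y) (sub_nonneg.2 ht1)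
      linarith
  have hwb : ∀ y, |w y| ≤ 1 := fun y => abs_le.2 ⟨by linarith [hW.nn y], hW.le y⟩
  have hwi : Integrable w (ny h ρ) := integrable_bdd _ w hwc 1 hwb
  have hwm : ∫ y, w y ∂(ny h ρ) = 1 / 2 := by
    have e1 : ∫ y, w y ∂(ny h ρ) = (1 - t) * m + t := by
      rw [hw, integral_add (hvi.const_mul _) (integrable_const _), integral_const_mul, ← hmd, integral_const]
      simp
    rw [e1]
    linarith
  have hJ := H w hW hwm
  -- the average
  have hmono : ∀ φ ψ : Eu κ → ℝ, Continuous φ → Continuous ψ → (∀ y, |φ y| ≤ 1) → (∀ y, |ψ y| ≤ 1) →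
      (∀ y, φ y ≤ ψ y) → ∀ x, gs h φ x ≤ gs h ψ x :=
    fun φ ψ a b c d => (hG φ ψ a b 1 c d).2.2.2.2.2
  have hgs : ∀ φ : Eu κ → ℝ, Vc φ → Continuous (gs h φ) ∧ ∀ x, 0 ≤ gs h φ x ∧ gs h φ x ≤ 1 := by
    intro φ hφ
    have hφb : ∀ y, |φ y| ≤ 1 := fun y => abs_le.2 ⟨by linarith [hφ.nn y], hφ.le y⟩
    refine ⟨(hG φ φ hφ.cont hφ.cont 1 hφb hφb).1, fun x => ⟨?_, ?_⟩⟩
    · have := hmono (fun _ => 0) φ continuous_const hφ.cont (fun _ => by simp) hφb hφ.nn x
      rw [hGc] at this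
      exact this
    · have := hmono φ (fun _ => 1) hφ.cont continuous_const hφb (fun _ => by simp) hφ.le x
      rw [hGc] at this
      exact this
  have hgw : ∀ x, gs h w x = (1 - t) * gs h v x + t := by
    intro x
    have a1 : ∀ y, |(1 - t) * v y| ≤ 1 := by
      intro y
      rw [abs_of_nonneg (mul_nonneg (sub_nonneg.2 ht1) (hv.nn y))]
      exact mul_le_one₀ (by linarith) (hv.nn y) (hv.le y)
    have a2 : ∀ y : Eu κ, |(fun _ : Eu κ => t) y| ≤ 1 := by
      intro y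
      show |t| ≤ 1
      rw [abs_of_nonneg ht0]
      exact ht1
    have a3 := (hG (fun y => (1 - t) * v y) (fun _ => t) (continuous_const.mul hv.cont) continuous_const 1 a1 a2).2.2.2.1 x
    have a4 := (hG v v hv.cont hv.cont 1 hvb hvb).2.2.2.2.1 (1 - t) x
    rw [hw, a3, a4, hGc]
  obtain ⟨cv, bv⟩ := hgs v hv
  obtain ⟨cw, bw⟩ := hgs w hW
  have hKc : Continuous Kp := by
    unfold Kp
    fun_prop
  have hKb : ∀ s : ℝ, 0 ≤ s → s ≤ 1 → |Kp s| ≤ 1 := fun s a b =>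
    abs_le.2 ⟨by linarith [Kp_nn a b], Kp_le a b⟩
  have iKv : Integrable (fun x => Kp (gs h v x)) (mu ρ) :=
    integrable_bdd _ _ (hKc.comp cv) 1 fun x => hKb _ (bv x).1 (bv x).2
  have iKw : Integrable (fun x => Kp (gs h w x)) (mu ρ) :=
    integrable_bdd _ _ (hKc.comp cw) 1 fun x => hKb _ (bw x).1 (bw x).2
  have iv2 : Integrable (fun y => v y ^ 2) (ny h ρ) :=
    integrable_bdd _ _ (hv.cont.pow 2) 1 fun y => by
      rw [abs_pow]
      exact pow_le_one₀ (abs_nonneg _) (hvb y)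
  have iw2 : Integrable (fun y => w y ^ 2) (ny h ρ) :=
    integrable_bdd _ _ (hwc.pow 2) 1 fun y => by
      rw [abs_pow]
      exact pow_le_one₀ (abs_nonneg _) (hwb y)
  have e1 : ∫ y, w y ^ 2 ∂(ny h ρ) ≤ ∫ y, v y ^ 2 ∂(ny h ρ) + 2 * t := by
    have h3 : ∫ y, (v y ^ 2 + 2 * t) ∂(ny h ρ) = ∫ y, v y ^ 2 ∂(ny h ρ) + 2 * t := by
      rw [integral_add iv2 (integrable_const _), integral_const]
      simp
    rw [← h3]
    refine integral_mono iw2 (iv2.add (integrable_const _)) fun y => ?_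
    show w y ^ 2 ≤ v y ^ 2 + 2 * t
    have h4 : w y - v y ≤ t := by
      rw [hwv]
      nlinarith [hv.nn y, hv.le y]
    have h5 : 0 ≤ w y - v y := by
      rw [hwv]
      nlinarith [hv.nn y, hv.le y]
    nlinarith [hv.nn y, hv.le y, hW.nn y, hW.le y]
  have e2 : ∫ x, Kp (gs h v x) ∂(mu ρ) ≤ ∫ x, Kp (gs h w x) ∂(mu ρ) + t := by
    have h3 : ∫ x, (Kp (gs h w x) + t) ∂(mu ρ) = ∫ x, Kp (gs h w x) ∂(mu ρ) + t := by
      rw [integral_add iKw (integrable_const _), integral_const]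
      simp
    rw [← h3]
    refine integral_mono iKv (iKw.add (integrable_const _)) fun x => ?_
    show Kp (gs h v x) ≤ Kp (gs h w x) + t
    have h4 := Kp_lip (bv x).1 (bv x).2 (bw x).1 (bw x).2
    have h5 : |gs h v x - gs h w x| ≤ t := by
      rw [hgw, abs_le]
      constructor
      · nlinarith [(bv x).1, (bv x).2]
      · nlinarith [(bv x).1, (bv x).2]
    have h6 := le_abs_self (Kp (gs h v x) - Kp (gs h w x))
    linarith
  unfold JJ at hJ ⊢
  linarith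

end Pool.Agent.Q275.EM
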