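import Pool.Agent.Q86.EM.Stm
import Pool.Agent.H888R2.KT.N5b
import Pool.Agent.H888R2.KT.N3

/-! # Project EM (helper86), JOB TIL: Gaussian tilts -/

set_option autoImplicit false

namespace Pool.Agent.Q275.EM

open MeasureTheory Set Filter Topology
open scoped ENNReal InnerProductSpace ContDiff
open Pool.Agent.H888R2.KT (LC pst gs zz gc)
open Pool.Agent.H212R2.KLS (mu Bdd)
open Pool.Agent.Q86.EM

variable {κ : Type} [Fintype κ] {ρ : Eu κ → ℝ}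

theorem norm_conv (x y : Eu κ) (t : ℝ) (h0 : 0 < t) (h1 : t < 1) :
    ‖(1 - t) • x + t • y‖ ^ 2 ≤ (1 - t) * ‖x‖ ^ 2 + t * ‖y‖ ^ 2 := by
  have e1 : ‖(1 - t) • x + t • y‖ ≤ (1 - t) * ‖x‖ + t * ‖y‖ := by
    refine (norm_add_le _ _).trans (le_of_eq ?_)
    rw [norm_smul, norm_smul, Real.norm_eq_abs, Real.norm_eq_abs, abs_of_pos h0, abs_of_pos (by linarith)]
  have e2 : ‖(1 - t) • x + t • y‖ ^ 2 ≤ ((1 - t) * ‖x‖ + t * ‖y‖) ^ 2 :=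
    pow_le_pow_left₀ (norm_nonneg _) e1 2
  have e3 : (1 - t) * ‖x‖ ^ 2 + t * ‖y‖ ^ 2 - ((1 - t) * ‖x‖ + t * ‖y‖) ^ 2 =
      t * (1 - t) * (‖x‖ - ‖y‖) ^ 2 := by ring
  have e4 : 0 ≤ t * (1 - t) * (‖x‖ - ‖y‖) ^ 2 :=
    mul_nonneg (mul_nonneg h0.le (by linarith)) (sq_nonneg _)
  linarith

theorem exp_conv (δ : ℝ) (hδ : 0 < δ) (x y : Eu κ) (t : ℝ) (h0 : 0 < t) (h1 : t < 1) :
    Real.exp (-(δ / 2 * ‖x‖ ^ 2)) ^ (1 - t) * Real.exp (-(δ / 2 * ‖y‖ ^ 2)) ^ t ≤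
      Real.exp (-(δ / 2 * ‖(1 - t) • x + t • y‖ ^ 2)) := by
  rw [← Real.exp_mul, ← Real.exp_mul, ← Real.exp_add, Real.exp_le_exp]
  have := norm_conv x y t h0 h1
  nlinarith

theorem lc_tl (hρ : LC ρ) (δ c : ℝ) (hδ : 0 < δ) (hc : 0 < c) : LC (tl δ c ρ) := by
  have hE : Measurable fun x : Eu κ => Real.exp (-(δ / 2 * ‖x‖ ^ 2)) := by
    have : Continuous fun x : Eu κ => Real.exp (-(δ / 2 * ‖x‖ ^ 2)) := by fun_prop
    exact this.measurable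
  have hm : Measurable (tl δ c ρ) := (hρ.meas.mul hE).const_mul c
  have hn : ∀ x, 0 ≤ tl δ c ρ x := fun x => by
    unfold tl
    exact mul_nonneg hc.le (mul_nonneg (hρ.nonneg x) (Real.exp_pos _).le)
  refine ⟨hn, hm, ?_, ?_, ?_, ?_⟩
  · intro x y t h0 h1
    unfold tl
    have hx := hρ.nonneg x
    have hy := hρ.nonneg y
    have ex := (Real.exp_pos (-(δ / 2 * ‖x‖ ^ 2))).le
    have ey := (Real.exp_pos (-(δ / 2 * ‖y‖ ^ 2))).le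
    rw [Real.mul_rpow hc.le (mul_nonneg hx ex), Real.mul_rpow hx ex, Real.mul_rpow hc.le (mul_nonneg hy ey),
      Real.mul_rpow hy ey]
    have hcc : c ^ (1 - t) * c ^ t = c := by
      rw [← Real.rpow_add hc]
      simp
    have h2 := hρ.logc x y t h0 h1
    have h3 := exp_conv δ hδ x y t h0 h1
    calc c ^ (1 - t) * (ρ x ^ (1 - t) * Real.exp (-(δ / 2 * ‖x‖ ^ 2)) ^ (1 - t)) *
          (c ^ t * (ρ y ^ t * Real.exp (-(δ / 2 * ‖y‖ ^ 2)) ^ t))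
        = (c ^ (1 - t) * c ^ t) * ((ρ x ^ (1 - t) * ρ y ^ t) *
          (Real.exp (-(δ / 2 * ‖x‖ ^ 2)) ^ (1 - t) * Real.exp (-(δ / 2 * ‖y‖ ^ 2)) ^ t)) := by ring
      _ = c * ((ρ x ^ (1 - t) * ρ y ^ t) *
          (Real.exp (-(δ / 2 * ‖x‖ ^ 2)) ^ (1 - t) * Real.exp (-(δ / 2 * ‖y‖ ^ 2)) ^ t)) := by rw [hcc]
      _ ≤ c * (ρ ((1 - t) • x + t • y) * Real.exp (-(δ / 2 * ‖(1 - t) • x + t • y‖ ^ 2))) := by
          refine mul_le_mul_of_nonneg_left ?_ hc.le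
          exact mul_le_mul h2 h3 (mul_nonneg (Real.rpow_nonneg ex _) (Real.rpow_nonneg ey _)) (hρ.nonneg _)
  · obtain ⟨R, hR⟩ := hρ.bdd
    refine ⟨R, fun x hx => ?_⟩
    unfold tl
    rw [hR x hx, zero_mul, mul_zero]
  · have h1 : mu (tl δ c ρ) univ ≤ ENNReal.ofReal c * mu ρ univ := by
      unfold mu
      rw [withDensity_apply _ MeasurableSet.univ, withDensity_apply _ MeasurableSet.univ,
        ← lintegral_const_mul _ hρ.meas.ennreal_ofReal]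
      refine lintegral_mono fun x => ?_
      show ENNReal.ofReal (tl δ c ρ x) ≤ ENNReal.ofReal c * ENNReal.ofReal (ρ x)
      rw [← ENNReal.ofReal_mul hc.le]
      refine ENNReal.ofReal_le_ofReal ?_
      unfold tl
      refine mul_le_mul_of_nonneg_left ?_ hc.le
      refine mul_le_of_le_one_right (hρ.nonneg x) ?_
      rw [Real.exp_le_one_iff]
      have : 0 ≤ δ / 2 * ‖x‖ ^ 2 := by positivity
      linarith
    exact ne_top_of_le_ne_top (ENNReal.mul_ne_top ENNReal.ofReal_ne_top hρ.fin) h1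
  · intro h0
    apply hρ.ne
    unfold mu at h0 ⊢
    rw [withDensity_eq_zero_iff hm.ennreal_ofReal.aemeasurable] at h0
    rw [withDensity_eq_zero_iff hρ.meas.ennreal_ofReal.aemeasurable]
    filter_upwards [h0] with x hx
    have h2 : tl δ c ρ x ≤ 0 := by
      have : ENNReal.ofReal (tl δ c ρ x) = 0 := hx
      exact ENNReal.ofReal_eq_zero.1 this
    have h3 : ρ x ≤ 0 := by
      by_contra hcon
      push Not at hcon
      have : 0 < tl δ c ρ x := by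
        unfold tl
        have := Real.exp_pos (-(δ / 2 * ‖x‖ ^ 2))
        positivity
      linarith
    show ENNReal.ofReal (ρ x) = 0
    exact ENNReal.ofReal_eq_zero.2 h3

theorem int_tl (hρ : LC ρ) (δ c : ℝ) (hδ : 0 < δ) (hc : 0 < c) (g : Eu κ → ℝ) :
    ∫ x, g x ∂(mu (tl δ c ρ)) = c * ∫ x, g x * Real.exp (-(δ / 2 * ‖x‖ ^ 2)) ∂(mu ρ) := by
  rw [Pool.Agent.H888R2.KT.N5bx.conv (lc_tl hρ δ c hδ hc), Pool.Agent.H888R2.KT.N5bx.conv hρ, ← integral_const_mul]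
  refine integral_congr_ae (Eventually.of_forall fun x => ?_)
  show tl δ c ρ x * g x = c * (ρ x * (g x * Real.exp (-(δ / 2 * ‖x‖ ^ 2))))
  unfold tl
  ring

theorem poin_tl (hρ : LC ρ) (δ c : ℝ) (hδ : 0 < δ) (hc : 0 < c) (h1 : mu (tl δ c ρ) univ = 1)
    (f : Eu κ → ℝ) (hf : ContDiff ℝ 1 f) :
    ∫ x, f x ^ 2 ∂(mu (tl δ c ρ)) - (∫ x, f x ∂(mu (tl δ c ρ))) ^ 2 ≤
      δ⁻¹ * ∫ x, ‖fderiv ℝ f x‖ ^ 2 ∂(mu (tl δ c ρ)) := by
  have hL := lc_tl hρ δ c hδ hc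
  have hP : IsProbabilityMeasure (mu (tl δ c ρ)) := ⟨h1⟩
  have hwb := Pool.Agent.H888R2.KC.bdd_of_finite (tl δ c ρ) hL.nonneg hL.meas hL.logc hL.fin hL.ne
  have hmid : ∀ x y, tl δ c ρ x * tl δ c ρ y ≤ (tl δ c ρ ((1 / 2 : ℝ) • (x + y))) ^ 2 *
      Real.exp (-(δ / 4 * ‖x - y‖ ^ 2)) := by
    intro x y
    have h2 := Pool.Agent.H888R2.KT.N5bx.mid hρ x y
    have h3 : Real.exp (-(δ / 2 * ‖x‖ ^ 2)) * Real.exp (-(δ / 2 * ‖y‖ ^ 2)) =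
        Real.exp (-(δ / 2 * ‖(1 / 2 : ℝ) • (x + y)‖ ^ 2)) ^ 2 * Real.exp (-(δ / 4 * ‖x - y‖ ^ 2)) := by
      rw [← Real.exp_add, ← Real.exp_nat_mul, ← Real.exp_add]
      congr 1
      have p := parallelogram_law_with_norm ℝ x y
      rw [norm_smul]
      norm_num
      nlinarith [p]
    unfold tl
    calc c * (ρ x * Real.exp (-(δ / 2 * ‖x‖ ^ 2))) * (c * (ρ y * Real.exp (-(δ / 2 * ‖y‖ ^ 2))))
        = c ^ 2 * ((ρ x * ρ y) * (Real.exp (-(δ / 2 * ‖x‖ ^ 2)) * Real.exp (-(δ / 2 * ‖y‖ ^ 2)))) := by ring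
      _ ≤ c ^ 2 * ((ρ ((1 / 2 : ℝ) • (x + y))) ^ 2 *
          (Real.exp (-(δ / 2 * ‖x‖ ^ 2)) * Real.exp (-(δ / 2 * ‖y‖ ^ 2)))) := by
          refine mul_le_mul_of_nonneg_left (mul_le_mul_of_nonneg_right h2 ?_) (sq_nonneg c)
          exact mul_nonneg (Real.exp_pos _).le (Real.exp_pos _).le
      _ = _ := by
          rw [h3]
          ring
  obtain ⟨c0, hc0⟩ := Pool.Agent.H212R2.KLS.poincare_of_strong volume (tl δ c ρ) hL.nonneg hL.meas hwb hL.bdd δ hδ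
    hmid f hf
  have hcv : ∀ g : Eu κ → ℝ, ∫ x, g x * tl δ c ρ x = ∫ x, g x ∂(mu (tl δ c ρ)) := by
    intro g
    rw [Pool.Agent.H888R2.KT.N5bx.conv hL]
    refine integral_congr_ae (Eventually.of_forall fun x => ?_)
    show g x * tl δ c ρ x = tl δ c ρ x * g x
    ring
  have h5 := hcv fun x => (f x - c0) ^ 2
  have h6 := hcv fun x => ‖fderiv ℝ f x‖ ^ 2
  rw [h5, h6] at hc0
  refine le_trans ?_ hc0
  have i1 : Integrable (fun x => f x ^ 2) (mu (tl δ c ρ)) := Pool.Agent.H888R2.KT.N3x.integ hL (hf.continuous.pow 2)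
  have i2 := Pool.Agent.H888R2.KT.N3x.integ hL hf.continuous
  have h7 : ∫ x, (f x - c0) ^ 2 ∂(mu (tl δ c ρ)) =
      ∫ x, f x ^ 2 ∂(mu (tl δ c ρ)) - 2 * c0 * (∫ x, f x ∂(mu (tl δ c ρ))) + c0 ^ 2 := by
    have e1 : ∀ x, (f x - c0) ^ 2 = (f x ^ 2 - 2 * c0 * f x) + c0 ^ 2 := fun x => by ring
    have i3 : Integrable (fun x => f x ^ 2 - 2 * c0 * f x) (mu (tl δ c ρ)) := i1.sub (i2.const_mul _)
    rw [integral_congr_ae (Eventually.of_forall e1), integral_add i3 (integrable_const _),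
      integral_sub i1 (i2.const_mul _), integral_const_mul, integral_const]
    simp
  rw [h7]
  nlinarith [sq_nonneg (∫ x, f x ∂(mu (tl δ c ρ)) - c0)]

theorem til (hC : S_COL) : S_TIL := by
  intro κ _ ρ hρ δ c hδ hc
  have hL := lc_tl hρ δ c hδ hc
  refine ⟨hL, int_tl hρ δ c hδ hc, fun h1 f hf => poin_tl hρ δ c hδ hc h1 f hf, ?_⟩
  intro h hh u hu y
  obtain ⟨a, ha⟩ : ∃ a : ℝ, a = δ + h⁻¹ := ⟨_, rfl⟩
  have ha0 : 0 < a := by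
    rw [ha]
    positivity
  obtain ⟨p, hp⟩ : ∃ p : Eu κ, p = (h * a)⁻¹ • y := ⟨_, rfl⟩
  obtain ⟨K, hK⟩ : ∃ K : ℝ, K = Real.exp (-(‖y‖ ^ 2 / (2 * h) - a / 2 * ‖p‖ ^ 2)) := ⟨_, rfl⟩
  have hK0 : 0 < K := by
    rw [hK]
    exact Real.exp_pos _
  have hexp : ∀ x : Eu κ, Real.exp (-(‖x - y‖ ^ 2 / (2 * h))) * Real.exp (-(δ / 2 * ‖x‖ ^ 2)) =
      K * Real.exp (-(a / 2 * ‖x - p‖ ^ 2)) := by
    intro x
    rw [hK, ← Real.exp_add, ← Real.exp_add]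
    congr 1
    rw [norm_sub_sq_real x y, norm_sub_sq_real x p, hp, inner_smul_right, ha]
    field_simp
    ring
  obtain ⟨I, hI⟩ : ∃ I : (Eu κ → ℝ) → ℝ, I = fun g => ∫ x, g x * Real.exp (-(a / 2 * ‖x - p‖ ^ 2)) ∂(mu ρ) :=
    ⟨_, rfl⟩
  have hIe : ∀ g, I g = ∫ x, g x * Real.exp (-(a / 2 * ‖x - p‖ ^ 2)) ∂(mu ρ) := fun g => by rw [hI]
  have hnum : ∀ g : Eu κ → ℝ, ∫ x, g x * Real.exp (-(‖x - y‖ ^ 2 / (2 * h))) ∂(mu (tl δ c ρ)) =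
      c * K * I g := by
    intro g
    rw [int_tl hρ δ c hδ hc, hIe, mul_assoc c K, ← integral_const_mul K]
    congr 1
    refine integral_congr_ae (Eventually.of_forall fun x => ?_)
    show g x * Real.exp (-(‖x - y‖ ^ 2 / (2 * h))) * Real.exp (-(δ / 2 * ‖x‖ ^ 2)) =
      K * (g x * Real.exp (-(a / 2 * ‖x - p‖ ^ 2)))
    rw [mul_assoc, hexp]
    ring
  have hzz : zz h (tl δ c ρ) y = c * K * I fun _ => 1 := by
    rw [← hnum]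
    unfold zz
    simp only [one_mul]
  have hz := Pool.Agent.H888R2.KT.N3x.zz_pos' hL h y
  have hcK : 0 < c * K := mul_pos hc hK0
  have hI1 : 0 < I fun _ => 1 := by
    rw [hzz] at hz
    exact (mul_pos_iff_of_pos_left hcK).1 hz
  have hpst : ∀ g : Eu κ → ℝ, pst h (tl δ c ρ) g y = I g / I fun _ => 1 := by
    intro g
    unfold pst
    rw [hnum, hzz, mul_div_mul_left _ _ hcK.ne']
  have hah : h⁻¹ * a⁻¹ = (1 + δ * h)⁻¹ := by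
    rw [ha, ← mul_inv]
    congr 1
    field_simp
    ring
  have hG0 : 0 ≤ I fun x => ‖fderiv ℝ u x‖ := by
    rw [hIe]
    exact integral_nonneg fun x => mul_nonneg (norm_nonneg _) (Real.exp_pos _).le
  rw [hpst]
  refine ContinuousLinearMap.opNorm_le_bound _ (mul_nonneg (by positivity) (div_nonneg hG0 hI1.le)) fun w => ?_
  rw [(Pool.Agent.H888R2.KT.pst_deriv hL h hh u hu.continuous y).2 w, hpst, hpst, hpst, Real.norm_eq_abs]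
  have h2 := hC κ ρ hρ a p ha0 u hu w
  have e1 : (I fun x => u x * ⟪x, w⟫_ℝ) = ∫ x, u x * ⟪w, x⟫_ℝ * Real.exp (-(a / 2 * ‖x - p‖ ^ 2)) ∂(mu ρ) := by
    rw [hIe]
    refine integral_congr_ae (Eventually.of_forall fun x => ?_)
    show u x * ⟪x, w⟫_ℝ * Real.exp (-(a / 2 * ‖x - p‖ ^ 2)) = u x * ⟪w, x⟫_ℝ * Real.exp (-(a / 2 * ‖x - p‖ ^ 2))
    rw [real_inner_comm]
  have e2 : (I fun x => ⟪x, w⟫_ℝ) = ∫ x, ⟪w, x⟫_ℝ * Real.exp (-(a / 2 * ‖x - p‖ ^ 2)) ∂(mu ρ) := by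
    rw [hIe]
    refine integral_congr_ae (Eventually.of_forall fun x => ?_)
    show ⟪x, w⟫_ℝ * Real.exp (-(a / 2 * ‖x - p‖ ^ 2)) = ⟪w, x⟫_ℝ * Real.exp (-(a / 2 * ‖x - p‖ ^ 2))
    rw [real_inner_comm]
  have e3 : (I fun _ => 1) = ∫ x, Real.exp (-(a / 2 * ‖x - p‖ ^ 2)) ∂(mu ρ) := by
    rw [hIe]
    simp only [one_mul]
  rw [← e1, ← e2, ← e3, ← hIe u, ← hIe (fun x => ‖fderiv ℝ u x‖)] at h2
  obtain ⟨A, hA⟩ : ∃ A, A = I fun x => u x * ⟪x, w⟫_ℝ := ⟨_, rfl⟩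
  obtain ⟨B, hB⟩ : ∃ B, B = I fun x => ⟪x, w⟫_ℝ := ⟨_, rfl⟩
  obtain ⟨Z, hZ⟩ : ∃ Z, Z = I fun _ => 1 := ⟨_, rfl⟩
  obtain ⟨G, hG⟩ : ∃ G, G = I fun x => ‖fderiv ℝ u x‖ := ⟨_, rfl⟩
  obtain ⟨U, hU⟩ : ∃ U, U = I u := ⟨_, rfl⟩
  rw [← hA, ← hB, ← hZ, ← hG, ← hU] at h2
  rw [← hA, ← hB, ← hZ, ← hG, ← hU]
  rw [← hZ] at hI1
  have e4 : A / Z - U / Z * (B / Z) = (A * Z - U * B) / Z ^ 2 := by
    field_simp
  rw [e4, abs_mul, abs_of_pos (inv_pos.2 hh), abs_div, abs_of_pos (pow_pos hI1 2), ← hah]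
  have e5 : h⁻¹ * a⁻¹ * (G / Z) * ‖w‖ = h⁻¹ * ((a⁻¹ * ‖w‖ * G * Z) / Z ^ 2) := by
    field_simp
  rw [e5]
  refine mul_le_mul_of_nonneg_left ?_ (by positivity)
  exact div_le_div_of_nonneg_right h2 (by positivity)

end Pool.Agent.Q275.EM
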